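import Pool.Agent.H27.DistSp

set_option autoImplicit false

namespace Pool.Agent.Results.MP_c36447_co.Mate

open Finset Matrix Polynomial Pool.Agent.H27.DistSp

/-- Hamming graph `H(d, q)` -/
def Ham (d q : ℕ) : SimpleGraph (Fin d → Fin q) where
  Adj x y := hammingDist x y = 1
  symm := ⟨fun _ _ h => (hammingDist_comm _ _).trans h⟩
  loopless := ⟨fun _ h => by simp at h⟩

/-- distance matrix -/
noncomputable def distM {V : Type} (G : SimpleGraph V) : Matrix V V ℝ := of fun x y => G.dist x y

lemma ham_sum (x y : Fin 7 → Fin 6) : hammingDist x y = ∑ i, if x i = y i then 0 else 1 := by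
  rw [hammingDist, card_filter]; simp

lemma ham_dist : (Ham 7 6).Preconnected ∧ ∀ x y, (Ham 7 6).dist x y = hammingDist x y :=
  dist_eq _ _ (fun _ _ => Iff.rfl) hammingDist_self hammingDist_triangle fun x y h => by
    obtain ⟨j, hj⟩ := Function.ne_iff.1 h
    have := sum_upd (fun a b : Fin 6 => if a = b then 0 else 1) x y (Function.update x j (y j)) j
      (by simp) fun i hi => Function.update_of_ne hi _ _
    refine ⟨Function.update x j (y j), ?_⟩
    simpa [ham_sum, hj] using this

lemma ham_cp {n : ℕ} (hn : Fintype.card (Fin 7 → Fin 6) = n) : X ^ (35 + 1) * (distM (Ham 7 6)).charpoly =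
    X ^ n * ((X - C ((n : ℝ) * (35 / 6))) * (X + C 46656) ^ 35) := by
  have m : ∀ (h : Fin 6 → ℝ) (j : Fin 7), ∑ x : Fin 7 → Fin 6, h (x j) = 46656 * ∑ a, h a := fun h j => by
    have := avg (fun x : Fin 7 → Fin 6 => h (x j)) j
    simp at this
    linarith
  exact cp (K := Fin 7 × Fin 5) hn (by simp) (distM (Ham 7 6)) (fun k x => uu k.2 (x k.1))
    (fun k x => vv k.2 (x k.1)) (35 / 6) 46656 (fun x y => by
      rw [distM, of_apply, ham_dist.2, ham_sum, Fintype.sum_prod_type]
      simp only [uv_sum]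
      rw [eq_sub_iff_add_eq, Nat.cast_sum, ← sum_add_distrib,
        sum_congr rfl (g := fun _ => 5 / 6) fun i _ => by split_ifs <;> norm_num]
      norm_num) (fun k => by rw [m, uu_sum, mul_zero]) (fun k => by rw [m, vv_sum, mul_zero])
    fun ⟨j, a⟩ ⟨l, b⟩ => by
      by_cases h : j = l
      · subst h
        rw [m fun c => vv a c * uu b c, vu_sum]
        simp
      · have := avg (fun x : Fin 7 → Fin 6 => vv a (x j) * uu b (x l)) l
        simpa [h, ← mul_sum, uu_sum] using this

abbrev Z := Fin 12 × (Option (Fin 5) → Fin 3)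

abbrev W := Z × (Fin 5 → Bool)

def pb (j : Option (Fin 5)) (y : Fin 12) : Bool := (y + 12 - j.elim 5 (↑) : ℕ) % 12 < 6

def enc (b : Bool) (t : Fin 3) : Fin 6 := if b then ⟨t, by omega⟩ else ⟨t + 3, by omega⟩

def idx (z : Z) (j : Option (Fin 5)) : Fin 6 := enc (pb j z.1) (z.2 j)

def co (x : W) (j : Option (Fin 5)) : Fin 6 × Bool := (idx x.1 j, j.elim true x.2)

def dd (a b : Fin 6 × Bool) : ℕ := if a.1 = b.1 then (if a.2 = b.2 then 0 else 2) else 1

def δ (x y : W) : ℕ := ∑ j, dd (co x j) (co y j)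

lemma dd0 : ∀ a, dd a a = 0 := by decide
lemma dd1 : ∀ a b, dd a b = dd b a := by decide
lemma dd2 : ∀ a b c, dd a c ≤ dd a b + dd b c := by decide +kernel
lemma enc_inj : ∀ b t b' t', enc b t = enc b' t' ↔ b = b' ∧ t = t' := by decide
lemma cyc : ∀ y y' : Fin 12, y ≠ y' → ∃ y1 j, pb j y ≠ pb j y' ∧ pb j y1 = pb j y' ∧
  ∀ i, i ≠ j → pb i y1 = pb i y := by decide +kernel

def G : SimpleGraph W where
  Adj x y := δ x y = 1
  symm := ⟨fun x y h => by simpa only [δ, dd1 (co y _)] using h⟩
  loopless := ⟨fun _ h => by simp [δ, dd0] at h⟩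

lemma G_dist : G.Preconnected ∧ ∀ x y, G.dist x y = δ x y :=
  dist_eq _ _ (fun _ _ => Iff.rfl) (by simp [δ, dd0]) (fun x y z => by
    simp only [δ, ← sum_add_distrib]; exact sum_le_sum fun j _ => dd2 _ _ _)
    fun ⟨⟨y, t⟩, s⟩ ⟨⟨y', t'⟩, s'⟩ h => by
    have key : ∀ y1 j, (pb j y ≠ pb j y' ∨ t j ≠ t' j) → pb j y1 = pb j y' →
        (∀ i, i ≠ j → pb i y1 = pb i y) → ∃ z, δ ((y, t), s) z = 1 ∧
          δ z ((y', t'), s') + 1 = δ ((y, t), s) ((y', t'), s') := fun y1 j h1 h2 h3 => by
      let z : W := ((y1, Function.update t j (t' j)), fun k => if some k = j then s' k else s k)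
      have := sum_upd dd (co ((y, t), s)) (co ((y', t'), s')) (co z) j dd0 fun i hi => by
        cases i <;> simp [co, idx, z, h3 _ hi, hi]
      have e : co z j = co ((y', t'), s') j := by cases j <;> simp [co, idx, z, h2]
      have e' : dd (co ((y, t), s) j) (co ((y', t'), s') j) = 1 :=
        if_neg (by simp only [co, idx, enc_inj]; tauto)
      rw [e, e', dd0] at this
      exact ⟨z, this⟩
    by_cases h1 : y = y'
    swap
    · obtain ⟨y1, j, a, b, c⟩ := cyc y y' h1
      exact key y1 j (Or.inl a) b c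
    subst h1
    by_cases h2 : t = t'
    swap
    · obtain ⟨j, hj⟩ := Function.ne_iff.1 h2
      exact key y j (Or.inr hj) rfl fun _ _ => rfl
    subst h2
    obtain ⟨k, hk⟩ := Function.ne_iff.1 fun e : s = s' => h (by rw [e])
    let z : W := ((y, Function.update t (some k) (t (some k) + 1)), s)
    have := sum_upd dd (co ((y, t), s)) (co ((y, t), s')) (co z) (some k) dd0 fun i hi => by
      simp [co, idx, z, hi]
    have e : dd (co z (some k)) (co ((y, t), s') (some k)) = 1 := if_neg (by simp [co, idx, z, enc_inj])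
    have e1 : dd (co ((y, t), s) (some k)) (co z (some k)) = 1 := if_neg (by simp [co, idx, z, enc_inj])
    have e2 : dd (co ((y, t), s) (some k)) (co ((y, t), s') (some k)) = 2 := by simp [dd, co, hk]
    rw [e, e1, e2] at this
    exact ⟨z, this.1, by have := this.2; simp only [δ]; omega⟩

def sg (b : Bool) : ℝ := if b then 1 else -1

lemma G_cp {n : ℕ} (hn : Fintype.card W = n) : X ^ (35 + 1) * (distM G).charpoly =
    X ^ n * ((X - C ((n : ℝ) * (35 / 6))) * (X + C 46656) ^ 35) := by
  have m : ∀ (h : Fin 6 → ℝ) j, ∑ z : Z, h (idx z j) = 1458 * ∑ a, h a := fun h j => by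
    have h1 : ∀ b, ∑ t : Option (Fin 5) → Fin 3, h (enc b (t j)) = 243 * ∑ c, h (enc b c) := fun b => by
      have := avg (fun t : Option (Fin 5) → Fin 3 => h (enc b (t j))) j
      simp at this
      linarith
    have h2 : ∀ j, (univ.filter fun y => pb j y = true).card = 6 ∧
      (univ.filter fun y => ¬pb j y = true).card = 6 := by decide
    simp only [Fintype.sum_prod_type, idx, h1]
    rw [sum_congr rfl (g := fun y => if pb j y = true then 243 * ∑ c, h (enc true c) else
      243 * ∑ c, h (enc false c)) fun y _ => by cases pb j y <;> simp, sum_ite, sum_const, sum_const,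
      (h2 j).1, (h2 j).2]
    simp [Fin.sum_univ_succ, enc]
    ring
  have s1 : ∀ j, ∑ s : Fin 5 → Bool, sg (s j) = 0 := fun j => by
    simpa [sg] using avg (fun s : Fin 5 → Bool => sg (s j)) j
  have s2 : ∀ j l, ∑ s : Fin 5 → Bool, sg (s j) * sg (s l) = if j = l then 32 else 0 := fun j l => by
    split_ifs with h
    · rw [sum_congr rfl (g := fun _ => 1) fun s _ => by rw [h]; cases s l <;> simp [sg]]
      simp
    · simpa [h, ← mul_sum, sg] using avg (fun s : Fin 5 → Bool => sg (s j) * sg (s l)) l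
  have pr : ∀ (A : Z → ℝ) (B : (Fin 5 → Bool) → ℝ), ∑ x : W, A x.1 * B x.2 = (∑ z, A z) * ∑ s, B s :=
    fun A B => by rw [Fintype.sum_prod_type, sum_mul_sum]
  let f : Fin 5 × Fin 6 → W → ℝ := fun k x => (if idx x.1 k.1 = k.2 then 1 else 0) * sg (x.2 k.1)
  have f0 : ∀ k (A : Z → ℝ), ∑ x : W, A x.1 * f k x = 0 := fun k A => by
    simp only [f, ← mul_assoc]
    rw [pr (fun z => A z * if idx z k.1 = k.2 then 1 else 0) fun s => sg (s k.1), s1, mul_zero]
  have g0 : ∀ h : Fin 6 → ℝ, ∑ x : W, h (idx x.1 none) = 46656 * ∑ a, h a := fun h => by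
    have := pr (fun z => h (idx z none)) fun _ => 1
    simp only [mul_one, m] at this
    rw [this]; simp; ring
  exact cp (K := Fin 5 ⊕ Fin 5 × Fin 6) hn (by simp) (distM G)
    (Sum.elim (fun a x => uu a (idx x.1 none)) f) (Sum.elim (fun a x => vv a (idx x.1 none)) f)
    (35 / 6) 46656 (fun x y => by
      rw [distM, of_apply, G_dist.2, δ, Fintype.sum_option, Fintype.sum_sum_type, Fintype.sum_prod_type]
      simp only [Sum.elim_inl, Sum.elim_inr, uv_sum]
      have : ∑ j : Fin 5, ((dd (co x j) (co y j) : ℝ) + ∑ i, f (j, i) x * f (j, i) y) = 5 := by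
        rw [sum_congr rfl (g := fun _ => 1) fun j _ => ?_]
        · simp
        have : ∀ (a b : Fin 6) (s t : Bool), (dd (a, s) (b, t) : ℝ) + ∑ i,
            ((if a = i then 1 else 0) * sg s) * ((if b = i then 1 else 0) * sg t) = 1 := by
          intro a b s t
          by_cases h : a = b <;> cases s <;> cases t <;> simp [dd, sg, h, eq_comm] <;> norm_num
        exact this _ _ _ _
      rw [sum_add_distrib] at this
      push_cast
      have e : (dd (co x none) (co y none) : ℝ) = 1 - if idx x.1 none = idx y.1 none then 1 else 0 := by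
        simp only [dd, co, Option.elim]; split_ifs <;> simp_all
      linarith)
    (by rintro (a | k)
        · simp only [Sum.elim_inl]; rw [g0, uu_sum, mul_zero]
        · simpa using f0 k fun _ => 1)
    (by rintro (a | k)
        · simp only [Sum.elim_inl]; rw [g0, vv_sum, mul_zero]
        · simpa using f0 k fun _ => 1)
    (by rintro (a | ⟨j, a⟩) (b | ⟨l, b⟩) <;> simp only [Sum.elim_inl, Sum.elim_inr]
        · rw [g0 fun c => vv a c * uu b c, vu_sum]; simp
        · simpa using f0 (l, b) fun z => vv a (idx z none)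
        · simpa [mul_comm] using f0 (j, a) fun z => uu b (idx z none)
        · simp only [f, mul_mul_mul_comm]
          rw [pr (fun z => (if idx z j = a then 1 else 0) * if idx z l = b then 1 else 0)
            fun s => sg (s j) * sg (s l), s2]
          by_cases h : j = l
          · subst h
            rw [m fun c => (if c = a then 1 else 0) * if c = b then 1 else 0]
            by_cases h : a = b <;> simp [h, eq_comm]
            norm_num
          · simp [h])

theorem result : ∃ (V : Type) (_ : Fintype V) (_ : DecidableEq V) (G : SimpleGraph V),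
    G.Connected ∧ (distM G).charpoly = (distM (Ham 7 6)).charpoly ∧ IsEmpty (G ≃g Ham 7 6) := by
  obtain ⟨n, h1, h2⟩ : ∃ n, Fintype.card W = n ∧ Fintype.card (Fin 7 → Fin 6) = n :=
    ⟨_, rfl, by simp⟩
  have h3 := (G_cp h1).trans (ham_cp h2).symm
  generalize 35 + 1 = k at h3
  have h4 := mul_left_cancel₀ (pow_ne_zero k X_ne_zero) h3
  refine ⟨W, _, _, G,
    ⟨G_dist.1⟩, h4, ⟨fun f => ?_⟩⟩
  clear h1 h2 h3 h4
  let a : W := (0, fun _ => true)
  let b : W := (0, fun _ => false)
  obtain ⟨w, hw⟩ := (ham_dist.1 (f a) (f b)).exists_walk_length_eq_dist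
  have h1 := SimpleGraph.dist_le (w.map f.symm.toHom)
  have h2 := hammingDist_le_card_fintype (x := f a) (y := f b)
  have h3 : δ a b = 10 := by decide
  simp [G_dist.2, hw, ham_dist.2, h3] at h1 h2
  omega

end Pool.Agent.Results.MP_c36447_co.Mate
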